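import Pool.Graph.R_pool_sql_team_seeded_2aa45f1a.Results.MP_852b03_co.DisjointRank

/-!
# MP_852b03_co: the pairs (essential rank, disjoint rank), over every field

For every field `F` the pairs `(erk A, drk A)` of the matrices `A` over `F` are exactly the pairs
`(r, k)` with `k ≤ r ≤ 2 k`.
-/

set_option autoImplicit false

namespace Pool.Agent.Results.MP_852b03_co.AllPairs

open Pool.Agent.Results.MP_852b03_co.DisjointRank

/-- the cyclic successor in the block `{3b, 3b+1, 3b+2}` -/
def nxt (i : ℕ) : ℕ := if i % 3 = 2 then i - 2 else i + 1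

/-- the rows in which the entry `1` is kept: all rows of the first `m` blocks, and the first row of
the other blocks -/
def keep (m i : ℕ) : Prop := i % 3 = 0 ∨ i / 3 < m

instance (m i : ℕ) : Decidable (keep m i) := by unfold keep; infer_instance

/-- the rows `ρ 0, ρ 1, …` which are used for the rank -/
def rho (m k : ℕ) : ℕ := if k < 2 * m then 3 * (k / 2) + k % 2 else 3 * (k - m)

lemma rho_lt {m s k : ℕ} (h : k < 2 * m + s) : rho m k + 1 < 3 * (m + s) := by
  unfold rho
  split_ifs <;> omega

section

variable {F : Type*} [Field F]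

/-- the matrix -/
def mat (F : Type*) [Field F] (m s : ℕ) :
    Matrix (Finset.range (3 * (m + s))) (Finset.range (3 * (m + s))) F :=
  Matrix.of fun i j => if keep m i ∧ (j : ℕ) = nxt i then 1 else 0

/-- the diagonal -/
def dia (F : Type*) [Field F] (m s : ℕ) :
    Matrix (Finset.range (3 * (m + s))) (Finset.range (3 * (m + s))) F :=
  Matrix.of fun i j => if (i : ℕ) = (j : ℕ) ∧ (i : ℕ) / 3 < m then
    (if (i : ℕ) % 3 = 2 then -1 else 1) else 0

lemma dia_supported (m s : ℕ) : DiagSupported (dia F m s) := by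
  intro x y hxy
  unfold dia
  rw [Matrix.of_apply, if_neg]
  rintro ⟨h, _⟩
  exact hxy h

/-- every matrix which agrees with `mat` off the diagonal has rank at least `2 m + s` -/
lemma rank_ge (m s : ℕ) (V : Matrix (Finset.range (3 * (m + s)))
    (Finset.range (3 * (m + s))) F) (hV : DiagSupported V) :
    2 * m + s ≤ (mat F m s + V).rank := by
  let f : Fin (2 * m + s) → Finset.range (3 * (m + s)) := fun k =>
    ⟨rho m k, Finset.mem_range.2 (by have := rho_lt k.2; omega)⟩
  let g : Fin (2 * m + s) → Finset.range (3 * (m + s)) := fun k =>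
    ⟨rho m k + 1, Finset.mem_range.2 (rho_lt k.2)⟩
  have h1 : ((mat F m s + V).submatrix f g).rank ≤ (mat F m s + V).rank :=
    Matrix.rank_submatrix_le _ _ _
  have h2 : ((mat F m s + V).submatrix f g).det = 1 := by
    have ht : ((mat F m s + V).submatrix f g).BlockTriangular OrderDual.toDual := by
      intro i j hij
      have hij' : (i : ℕ) < (j : ℕ) := hij
      have hi := i.2
      have hj := j.2
      change mat F m s (f i) (g j) + V (f i) (g j) = 0
      rw [hV (f i) (g j) (by
        change rho m i ≠ rho m j + 1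
        unfold rho; split_ifs <;> omega), add_zero]
      unfold mat
      rw [Matrix.of_apply, if_neg]
      rintro ⟨_, h⟩
      change rho m j + 1 = nxt (rho m i) at h
      unfold nxt rho at h
      split_ifs at h <;> omega
    rw [Matrix.det_of_lowerTriangular _ ht]
    refine Finset.prod_eq_one fun k _ => ?_
    change mat F m s (f k) (g k) + V (f k) (g k) = 1
    rw [hV (f k) (g k) (by
      change rho m k ≠ rho m k + 1
      omega), add_zero]
    unfold mat
    rw [Matrix.of_apply, if_pos]
    have hk := k.2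
    constructor
    · change keep m (rho m k)
      unfold keep rho
      split_ifs <;> omega
    · change rho m k + 1 = nxt (rho m k)
      unfold nxt rho
      split_ifs <;> omega
  have h3 : ((mat F m s + V).submatrix f g).rank = 2 * m + s := by
    have := Matrix.rank_of_isUnit ((mat F m s + V).submatrix f g) (by
      rw [Matrix.isUnit_iff_isUnit_det, h2]
      exact isUnit_one)
    rw [this, Fintype.card_fin]
  omega

lemma rank_le (m s : ℕ) : (mat F m s + dia F m s).rank ≤ 2 * m + s := by
  let f : Fin (2 * m + s) → Finset.range (3 * (m + s)) := fun k =>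
    ⟨rho m k, Finset.mem_range.2 (by have := rho_lt k.2; omega)⟩
  rw [Matrix.rank_eq_finrank_span_row]
  have h1 : Submodule.span F (Set.range (mat F m s + dia F m s).row) ≤
      Submodule.span F (Set.range fun k : Fin (2 * m + s) =>
        (mat F m s + dia F m s).row (f k)) := by
    rw [Submodule.span_le]
    rintro _ ⟨i, rfl⟩
    obtain ⟨i, hi⟩ := i
    have hi' := Finset.mem_range.1 hi
    have hm3 : i % 3 < 3 := Nat.mod_lt _ (by norm_num)
    by_cases hfull : i / 3 < m
    · by_cases h2 : i % 3 = 2
      · -- the third row of a full block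
        have e : (mat F m s + dia F m s).row ⟨i, hi⟩ =
            (mat F m s + dia F m s).row (f ⟨2 * (i / 3), by omega⟩) -
            (mat F m s + dia F m s).row (f ⟨2 * (i / 3) + 1, by omega⟩) := by
          funext j
          obtain ⟨j, hj⟩ := j
          change mat F m s ⟨i, hi⟩ ⟨j, hj⟩ + dia F m s ⟨i, hi⟩ ⟨j, hj⟩ =
            (mat F m s ⟨rho m (2 * (i / 3)), _⟩ ⟨j, hj⟩ +
              dia F m s ⟨rho m (2 * (i / 3)), _⟩ ⟨j, hj⟩) -
            (mat F m s ⟨rho m (2 * (i / 3) + 1), _⟩ ⟨j, hj⟩ +
              dia F m s ⟨rho m (2 * (i / 3) + 1), _⟩ ⟨j, hj⟩)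
          have r0 : rho m (2 * (i / 3)) = i - 2 := by
            unfold rho; rw [if_pos (by omega)]; omega
          have r1 : rho m (2 * (i / 3) + 1) = i - 1 := by
            unfold rho; rw [if_pos (by omega)]; omega
          have n0 : nxt (i - 2) = i - 1 := by unfold nxt; rw [if_neg (by omega)]; omega
          have n1 : nxt (i - 1) = i := by unfold nxt; rw [if_neg (by omega)]; omega
          have n2 : nxt i = i - 2 := by unfold nxt; rw [if_pos h2]
          have k0 : keep m (i - 2) := by unfold keep; omega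
          have k1 : keep m (i - 1) := by unfold keep; omega
          have k2 : keep m i := by unfold keep; omega
          have q0 : (i - 2) / 3 < m := by omega
          have q1 : (i - 1) / 3 < m := by omega
          have m0 : ¬ (i - 2) % 3 = 2 := by omega
          have m1 : ¬ (i - 1) % 3 = 2 := by omega
          simp only [mat, dia, Matrix.of_apply, r0, r1, n0, n1, n2, k0, k1, k2, q0, q1, hfull,
            true_and, and_true, m0, m1, h2, if_true, if_false]
          have hi2 : 2 ≤ i := by omega
          have c1 : i - 1 ≠ i - 2 := by omega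
          have c2 : i ≠ i - 1 := by omega
          have c3 : i ≠ i - 2 := by omega
          split_ifs <;> first | (exfalso; omega) | ring1
        rw [e]
        exact sub_mem (Submodule.subset_span ⟨_, rfl⟩) (Submodule.subset_span ⟨_, rfl⟩)
      · -- a row `ρ k`
        have hk : 2 * (i / 3) + i % 3 < 2 * m + s := by omega
        have e : (⟨i, hi⟩ : Finset.range (3 * (m + s))) = f ⟨2 * (i / 3) + i % 3, hk⟩ := by
          apply Subtype.ext
          change i = rho m (2 * (i / 3) + i % 3)
          unfold rho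
          rw [if_pos (by omega)]
          omega
        rw [e]
        exact Submodule.subset_span ⟨_, rfl⟩
    · by_cases h0 : i % 3 = 0
      · have hk : i / 3 + m < 2 * m + s := by omega
        have e : (⟨i, hi⟩ : Finset.range (3 * (m + s))) = f ⟨i / 3 + m, hk⟩ := by
          apply Subtype.ext
          change i = rho m (i / 3 + m)
          unfold rho
          rw [if_neg (by omega)]
          omega
        rw [e]
        exact Submodule.subset_span ⟨_, rfl⟩
      · have e : (mat F m s + dia F m s).row ⟨i, hi⟩ = 0 := by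
          funext j
          obtain ⟨j, hj⟩ := j
          change mat F m s ⟨i, hi⟩ ⟨j, hj⟩ + dia F m s ⟨i, hi⟩ ⟨j, hj⟩ = 0
          have k2 : ¬ keep m i := by unfold keep; omega
          simp only [mat, dia, Matrix.of_apply, k2, hfull, false_and, and_false, if_false,
            add_zero]
        rw [e]
        exact Submodule.zero_mem _
  refine (Submodule.finrank_mono h1).trans ?_
  refine (finrank_range_le_card _).trans ?_
  rw [Fintype.card_fin]

lemma erk_mat (m s : ℕ) : erk (mat F m s) = 2 * m + s := by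
  apply le_antisymm
  · exact le_trans (Nat.sInf_le ⟨dia F m s, dia_supported m s, rfl⟩) (rank_le m s)
  · refine le_csInf ⟨_, dia F m s, dia_supported m s, rfl⟩ ?_
    rintro k ⟨V, hV, rfl⟩
    exact rank_ge m s V hV

lemma subrank_le (m s : ℕ) (X₁ X₂ : Finset (Finset.range (3 * (m + s))))
    (h : ∀ x ∈ X₁, ∀ y ∈ X₂, (x : ℕ) ≠ (y : ℕ)) : subrank (mat F m s) X₁ X₂ ≤ m + s := by
  classical
  unfold subrank
  set B := (mat F m s).submatrix (fun x : X₁ => (x : Finset.range (3 * (m + s))))
    (fun y : X₂ => (y : Finset.range (3 * (m + s)))) with hB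
  -- the nonzero rows
  let T : Finset X₁ := Finset.univ.filter fun x => ∃ y : X₂,
    ((y : Finset.range (3 * (m + s))) : ℕ) = nxt ((x : Finset.range (3 * (m + s))) : ℕ)
  have hT : T.card ≤ m + s := by
    refine le_trans ?_ (le_of_eq (Finset.card_range (m + s)))
    refine Finset.card_le_card_of_injOn (fun x => ((x : Finset.range (3 * (m + s))) : ℕ) / 3)
      ?_ ?_
    · intro x _
      have := Finset.mem_range.1 (x : Finset.range (3 * (m + s))).2
      rw [Finset.coe_range, Set.mem_Iio]
      change ((x : Finset.range (3 * (m + s))) : ℕ) / 3 < m + s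
      omega
    · intro x hx x' hx' he
      simp only at he
      rw [Finset.mem_coe, Finset.mem_filter] at hx hx'
      obtain ⟨-, y, hy⟩ := hx
      obtain ⟨-, y', hy'⟩ := hx'
      have a1 := h x x.2 y y.2
      have a2 := h x x.2 y' y'.2
      have a3 := h x' x'.2 y y.2
      have a4 := h x' x'.2 y' y'.2
      rw [hy] at a1 a3
      rw [hy'] at a2 a4
      apply Subtype.ext
      apply Subtype.ext
      by_contra hne
      unfold nxt at a1 a2 a3 a4
      split_ifs at a1 a2 a3 a4 <;> omega
  rw [Matrix.rank_eq_finrank_span_row]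
  have h1 : Submodule.span F (Set.range B.row) ≤
      Submodule.span F (Set.range fun x : T => B.row (x : X₁)) := by
    rw [Submodule.span_le]
    rintro _ ⟨x, rfl⟩
    by_cases hx : x ∈ T
    · exact Submodule.subset_span ⟨⟨x, hx⟩, rfl⟩
    · have e : B.row x = 0 := by
        funext y
        change mat F m s x y = 0
        unfold mat
        rw [Matrix.of_apply, if_neg]
        rintro ⟨_, hy⟩
        exact hx (Finset.mem_filter.2 ⟨Finset.mem_univ _, y, hy⟩)
      rw [e]
      exact Submodule.zero_mem _
  refine (Submodule.finrank_mono h1).trans ?_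
  refine (finrank_range_le_card _).trans ?_
  rw [Fintype.card_coe]
  exact hT

lemma bdd {Q₁ Q₂ : Finset ℕ} (A : Matrix Q₁ Q₂ F) :
    BddAbove {r | ∃ (X₁ : Finset Q₁) (X₂ : Finset Q₂),
      (∀ x ∈ X₁, ∀ y ∈ X₂, (x : ℕ) ≠ (y : ℕ)) ∧ r = subrank A X₁ X₂} := by
  refine ⟨Fintype.card Q₂, ?_⟩
  rintro r ⟨Y₁, Y₂, -, rfl⟩
  unfold subrank
  refine (Matrix.rank_le_card_width _).trans ?_
  rw [Fintype.card_coe]
  exact Finset.card_le_univ _

lemma drk_ge (m s : ℕ) : m + s ≤ drk (mat F m s) := by
  classical
  let X₁ : Finset (Finset.range (3 * (m + s))) := Finset.univ.filter fun x => (x : ℕ) % 3 = 0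
  let X₂ : Finset (Finset.range (3 * (m + s))) := Finset.univ.filter fun x => (x : ℕ) % 3 = 1
  have hd : ∀ x ∈ X₁, ∀ y ∈ X₂, (x : ℕ) ≠ (y : ℕ) := by
    intro x hx y hy h
    have h1 := (Finset.mem_filter.1 hx).2
    have h2 := (Finset.mem_filter.1 hy).2
    omega
  refine le_trans ?_ (le_csSup (bdd (mat F m s)) ⟨X₁, X₂, hd, rfl⟩)
  let f : Fin (m + s) → X₁ := fun k => ⟨⟨3 * (k : ℕ), Finset.mem_range.2 (by
    have := k.2; omega)⟩, Finset.mem_filter.2 ⟨Finset.mem_univ _, by
      change 3 * (k : ℕ) % 3 = 0; omega⟩⟩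
  let g : Fin (m + s) → X₂ := fun k => ⟨⟨3 * (k : ℕ) + 1, Finset.mem_range.2 (by
    have := k.2; omega)⟩, Finset.mem_filter.2 ⟨Finset.mem_univ _, by
      change (3 * (k : ℕ) + 1) % 3 = 1; omega⟩⟩
  unfold subrank
  refine le_trans (le_of_eq ?_) (Matrix.rank_submatrix_le _ f g)
  have h1 : (((mat F m s).submatrix (fun x : X₁ => (x : Finset.range (3 * (m + s))))
      (fun y : X₂ => (y : Finset.range (3 * (m + s))))).submatrix f g) = 1 := by
    ext i j
    change (if keep m (3 * (i : ℕ)) ∧ 3 * (j : ℕ) + 1 = nxt (3 * (i : ℕ)) then (1 : F) else 0) = _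
    rw [Matrix.one_apply]
    have hk : keep m (3 * (i : ℕ)) := by unfold keep; omega
    have hn : nxt (3 * (i : ℕ)) = 3 * (i : ℕ) + 1 := by
      unfold nxt; rw [if_neg (by omega)]
    rw [hn]
    by_cases hij : i = j
    · rw [if_pos hij, if_pos ⟨hk, by rw [hij]⟩]
    · rw [if_neg hij, if_neg]
      rintro ⟨_, h⟩
      exact hij (Fin.ext (by omega))
  rw [h1, Matrix.rank_one, Fintype.card_fin]

lemma drk_mat (m s : ℕ) : drk (mat F m s) = m + s := by
  apply le_antisymm
  · unfold drk
    apply csSup_le'
    rintro k ⟨X₁, X₂, h, rfl⟩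
    exact subrank_le m s X₁ X₂ h
  · exact drk_ge m s

lemma drk_le_erk {Q₁ Q₂ : Finset ℕ} (A : Matrix Q₁ Q₂ F) : drk A ≤ erk A := by
  unfold drk
  apply csSup_le'
  rintro k ⟨X₁, X₂, h, rfl⟩
  refine le_csInf ⟨_, 0, fun _ _ _ => rfl, rfl⟩ ?_
  rintro r ⟨V, hV, rfl⟩
  unfold subrank
  have e : A.submatrix (fun x : X₁ => (x : Q₁)) (fun y : X₂ => (y : Q₂)) =
      (A + V).submatrix (fun x : X₁ => (x : Q₁)) (fun y : X₂ => (y : Q₂)) := by
    ext x y
    change A x y = A x y + V x y
    rw [hV _ _ (h x x.2 y y.2), add_zero]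
  rw [e]
  exact Matrix.rank_submatrix_le _ _ _

lemma erk_le_two_mul {Q₁ Q₂ : Finset ℕ} (A : Matrix Q₁ Q₂ F) : erk A ≤ 2 * drk A := by
  have h1 := DisjointRank.result F Q₁ Q₂ A
  have h2 : (erk A : ℝ) ≤ 2 * (drk A : ℝ) := by linarith
  exact_mod_cast h2

end

/-- **Main theorem.** For every field `F` and all `r`, `k` there is a matrix over `F` with essential
rank `r` and disjoint rank `k` if and only if `k ≤ r ≤ 2 k`. In particular `drk A ≥ erk A / 2` for
all `A`, with equality for matrices of every even essential rank, over every field. -/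
theorem result (F : Type*) [Field F] (r k : ℕ) :
    (∃ (Q₁ Q₂ : Finset ℕ) (A : Matrix Q₁ Q₂ F), erk A = r ∧ drk A = k) ↔ k ≤ r ∧ r ≤ 2 * k := by
  constructor
  · rintro ⟨Q₁, Q₂, A, rfl, rfl⟩
    exact ⟨drk_le_erk A, erk_le_two_mul A⟩
  · rintro ⟨h1, h2⟩
    refine ⟨_, _, mat F (r - k) (2 * k - r), ?_, ?_⟩
    · rw [erk_mat]; omega
    · rw [drk_mat]; omega

end Pool.Agent.Results.MP_852b03_co.AllPairs
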